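import Pool.Agent.helper35.Cant.MU

set_option autoImplicit false

/-! # module UF: the non-uniformity -/

namespace Pool.Agent.helper32.Cant

open Finset

theorem Uf_nonneg {n : ℕ} (c : Cfg n) {α : Type} (X : Sp n → α) (k : ℕ) (x : Sp n) :
    0 ≤ Uf c X k x := by
  unfold Uf
  exact Finset.sum_nonneg fun _ _ => Finset.sum_nonneg fun _ _ => abs_nonneg _

theorem Uf_eq {n : ℕ} (c : Cfg n) {α : Type} (X : Sp n → α) (k : ℕ) {x y : Sp n} (h : X x = X y) :
    Uf c X k x = Uf c X k y := by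
  unfold Uf
  refine Finset.sum_congr rfl fun t _ => Finset.sum_congr rfl fun a _ => ?_
  rw [ce_eq h, ce_eq (f := fun y => ind (cell n (k + 1) (uu c y) = 3 * t + a + 1)) h]

private theorem sum_ind_le (s : Finset ℕ) (v : ℕ) : ∑ t ∈ s, ind (v = t) ≤ 1 := by
  classical
  by_cases hv : v ∈ s
  · rw [Finset.sum_eq_single_of_mem v hv (fun b _ hb => ind_of_not (fun h => hb h.symm))]
    exact ind_le_one _
  · rw [Finset.sum_eq_zero]
    · norm_num
    · intro t ht
      exact ind_of_not (fun h => hv (h ▸ ht))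

theorem Uf_le_two {n : ℕ} (c : Cfg n) {α : Type} (X : Sp n → α) (k : ℕ) (x : Sp n) :
    Uf c X k x ≤ 2 := by
  have hμ := (isProb_mu c).1
  set p : ℕ → ℝ := fun v => ce (mu c) X (fun y => ind (cell n (k + 1) (uu c y) = v)) x with hp
  have hp0 : ∀ v, 0 ≤ p v := fun v => ce_nonneg hμ X x (fun _ _ _ => ind_nonneg _)
  have h1 : Uf c X k x ≤ ∑ t ∈ range (3 ^ k), ∑ a ∈ range 2, (p (3 * t + a) + p (3 * t + a + 1)) := by
    unfold Uf
    refine Finset.sum_le_sum fun t _ => Finset.sum_le_sum fun a _ => ?_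
    have ha := hp0 (3 * t + a)
    have hb := hp0 (3 * t + a + 1)
    show |p (3 * t + a) - p (3 * t + a + 1)| ≤ _
    rw [abs_le]
    constructor <;> linarith
  refine h1.trans ?_
  have h2 : ∀ t, ∑ a ∈ range 2, (p (3 * t + a) + p (3 * t + a + 1))
      ≤ 2 * ∑ a ∈ range 3, p (3 * t + a) := by
    intro t
    simp only [Finset.sum_range_succ, Finset.sum_range_zero, zero_add, add_zero]
    have h0 := hp0 (3 * t)
    have h2 := hp0 (3 * t + 2)
    have e : 3 * t + 1 + 1 = 3 * t + 2 := by ring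
    rw [e]
    linarith
  have h3 : ∑ t ∈ range (3 ^ k), ∑ a ∈ range 2, (p (3 * t + a) + p (3 * t + a + 1))
      ≤ 2 * ∑ t ∈ range (3 ^ k), ∑ a ∈ range 3, p (3 * t + a) := by
    rw [Finset.mul_sum]
    exact Finset.sum_le_sum fun t _ => h2 t
  refine h3.trans ?_
  have h4 : ∑ t ∈ range (3 ^ k), ∑ a ∈ range 3, p (3 * t + a)
      = ce (mu c) X (fun y => ∑ t ∈ range (3 ^ k), ∑ a ∈ range 3,
          ind (cell n (k + 1) (uu c y) = 3 * t + a)) x := by
    rw [ce_sum]
    refine Finset.sum_congr rfl fun t _ => ?_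
    rw [ce_sum]
  have h5 : ∀ v : ℕ, ∑ t ∈ range (3 ^ k), ∑ a ∈ range 3, ind (v = 3 * t + a) ≤ 1 := by
    intro v
    rw [← Finset.sum_product']
    have : ∑ x ∈ range (3 ^ k) ×ˢ range 3, ind (v = 3 * x.1 + x.2)
        = ∑ w ∈ (range (3 ^ k) ×ˢ range 3).image (fun x => 3 * x.1 + x.2), ind (v = w) := by
      rw [Finset.sum_image]
      intro a ha b hb hab
      simp only [Finset.coe_product, Set.mem_prod, Finset.mem_coe, Finset.mem_range] at ha hb
      simp only at hab
      ext <;> omega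
    rw [this]
    exact sum_ind_le _ v
  have h6 : ce (mu c) X (fun y => ∑ t ∈ range (3 ^ k), ∑ a ∈ range 3,
          ind (cell n (k + 1) (uu c y) = 3 * t + a)) x ≤ 1 := by
    refine (le_abs_self _).trans (abs_ce_le_of hμ X _ x zero_le_one fun y _ _ => ?_)
    rw [abs_of_nonneg (Finset.sum_nonneg fun _ _ => Finset.sum_nonneg fun _ _ => ind_nonneg _)]
    exact h5 _
  rw [h4]
  linarith

/-- the non-uniformity grows with the information (Jensen) -/
theorem Uf_le_ce {n : ℕ} (c : Cfg n) {α β : Type} {X : Sp n → α} {Y : Sp n → β} (h : Ref X Y)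
    (k : ℕ) (x : Sp n) : Uf c X k x ≤ ce (mu c) X (Uf c Y k) x := by
  have hμ := (isProb_mu c).1
  have e : ce (mu c) X (Uf c Y k) x = ∑ t ∈ range (3 ^ k), ∑ a ∈ range 2,
      ce (mu c) X (fun z => |ce (mu c) Y (fun y => ind (cell n (k + 1) (uu c y) = 3 * t + a)) z
      - ce (mu c) Y (fun y => ind (cell n (k + 1) (uu c y) = 3 * t + a + 1)) z|) x := by
    have : Uf c Y k = fun z => ∑ t ∈ range (3 ^ k), ∑ a ∈ range 2,
      |ce (mu c) Y (fun y => ind (cell n (k + 1) (uu c y) = 3 * t + a)) z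
      - ce (mu c) Y (fun y => ind (cell n (k + 1) (uu c y) = 3 * t + a + 1)) z| := rfl
    rw [this, ce_sum]
    refine Finset.sum_congr rfl fun t _ => ?_
    rw [ce_sum]
  rw [e]
  unfold Uf
  refine Finset.sum_le_sum fun t _ => Finset.sum_le_sum fun a _ => ?_
  rw [← ce_ce hμ h, ← ce_ce hμ h (fun y => ind (cell n (k + 1) (uu c y) = 3 * t + a + 1)), ← ce_sub]
  exact abs_ce_le hμ X _ x

end Pool.Agent.helper32.Cant
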