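import Pool.Agent.helper32.Cant.Basic

set_option autoImplicit false

/-! # module MU: the measures `mu`, `mu2` -/

namespace Pool.Agent.helper32.Cant

open Finset

private theorem mu_nonneg {n : ℕ} (c : Cfg n) (x : Sp n) : 0 ≤ mu c x := by
  unfold mu; split_ifs <;> positivity

private theorem card_pos' {n : ℕ} (c : Cfg n) : (0 : ℝ) < c.G.card := by
  exact_mod_cast c.ne.card_pos

private theorem ex_mu_eq {n : ℕ} (c : Cfg n) (f : Sp n → ℝ) :
    ex (mu c) f = (∑ x ∈ c.G, ∑ τ : ZMod (3 ^ (2 * n)), f (x, τ))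
      / ((c.G.card : ℝ) * 3 ^ (2 * n)) := by
  classical
  unfold ex
  rw [Fintype.sum_prod_type]
  have h1 : ∀ x : Fin (3 ^ n) × Word n, ∑ τ : ZMod (3 ^ (2 * n)), mu c (x, τ) * f (x, τ)
      = if x ∈ c.G then (∑ τ : ZMod (3 ^ (2 * n)), f (x, τ)) / ((c.G.card : ℝ) * 3 ^ (2 * n))
        else 0 := by
    intro x
    unfold mu
    by_cases hx : x ∈ c.G
    · simp only [hx, if_true]
      rw [Finset.sum_div]
      refine Finset.sum_congr rfl fun τ _ => ?_
      rw [div_mul_eq_mul_div, one_mul]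
    · simp [hx]
  simp only [h1]
  rw [← Finset.sum_filter, Finset.sum_div]
  refine Finset.sum_congr ?_ fun _ _ => rfl
  ext x; simp

theorem isProb_mu {n : ℕ} (c : Cfg n) : IsProb (mu c) := by
  refine ⟨mu_nonneg c, ?_⟩
  have h := ex_mu_eq c (fun _ => 1)
  have h2 : ex (mu c) (fun _ => (1 : ℝ)) = ∑ ω, mu c ω := by
    unfold ex; simp
  rw [← h2, h]
  simp only [Finset.sum_const, Finset.card_univ, ZMod.card, nsmul_eq_mul, mul_one]
  have := card_pos' c
  push_cast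
  field_simp

theorem cnt_pos {n : ℕ} (c : Cfg n) (i : ℕ) (x : Fin (3 ^ n) × Word n) (hx : x ∈ c.G) :
    1 ≤ cnt c i x := by
  unfold cnt
  have h := Finset.single_le_sum (f := fun w' : Word n => ind ((x.1, w') ∈ c.G ∧ agree i x.2 w'))
    (fun w' _ => ind_nonneg _) (Finset.mem_univ x.2)
  have h2 : ind ((x.1, x.2) ∈ c.G ∧ agree i x.2 x.2) = 1 :=
    ind_of ⟨hx, fun _ _ => rfl⟩
  simp only [h2] at h
  exact h

theorem mu_pos_iff {n : ℕ} (c : Cfg n) (x : Sp n) : 0 < mu c x ↔ x.1 ∈ c.G := by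
  unfold mu
  by_cases hx : x.1 ∈ c.G
  · simp only [hx, if_true, iff_true]
    have := card_pos' c
    positivity
  · simp [hx]

theorem mu2_pos_iff {n : ℕ} (c : Cfg n) (i : ℕ) (z : Sp2 n) :
    0 < mu2 c i z ↔ z.1.1 ∈ c.G ∧ (z.1.1.1, z.2) ∈ c.G ∧ agree i z.1.1.2 z.2 := by
  unfold mu2
  by_cases hx : z.1.1 ∈ c.G
  · have h1 := (mu_pos_iff c z.1).2 hx
    have h2 := cnt_pos c i z.1.1 hx
    by_cases hy : (z.1.1.1, z.2) ∈ c.G ∧ agree i z.1.1.2 z.2
    · rw [ind_of hy]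
      simp only [hx, hy.1, hy.2, and_self, iff_true]
      positivity
    · rw [ind_of_not hy]
      simp only [zero_div, mul_zero, lt_self_iff_false, false_iff]
      tauto
  · have h1 : mu c z.1 = 0 := by
      have := mu_nonneg c z.1
      have h2 := (mu_pos_iff c z.1).not.2 hx
      linarith
    rw [h1]
    simp [hx]

private theorem sum_cnt {n : ℕ} (c : Cfg n) (i : ℕ) (x : Sp n) :
    mu c x * ∑ w' : Word n, (ind ((x.1.1, w') ∈ c.G ∧ agree i x.1.2 w') / cnt c i x.1) = mu c x := by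
  by_cases hx : x.1 ∈ c.G
  · have h2 := cnt_pos c i x.1 hx
    rw [← Finset.sum_div]
    have : (∑ w' : Word n, ind ((x.1.1, w') ∈ c.G ∧ agree i x.1.2 w')) = cnt c i x.1 := rfl
    rw [this, div_self (by linarith), mul_one]
  · have h1 : mu c x = 0 := by
      have := mu_nonneg c x
      have h2 := (mu_pos_iff c x).not.2 hx
      linarith
    rw [h1, zero_mul]

/-- the first marginal of `mu2` is `mu` -/
theorem ex_mu2_fst {n : ℕ} (c : Cfg n) (i : ℕ) (f : Sp n → ℝ) :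
    ex (mu2 c i) (fun z => f z.1) = ex (mu c) f := by
  unfold ex
  rw [Fintype.sum_prod_type]
  refine Finset.sum_congr rfl fun x _ => ?_
  have h : ∀ w' : Word n, mu2 c i (x, w') * f (x, w').1
      = (mu c x * (ind ((x.1.1, w') ∈ c.G ∧ agree i x.1.2 w') / cnt c i x.1)) * f x := fun w' => rfl
  simp only [h]
  rw [← Finset.sum_mul, ← Finset.mul_sum, sum_cnt]

theorem isProb_mu2 {n : ℕ} (c : Cfg n) (i : ℕ) : IsProb (mu2 c i) := by
  constructor
  · intro z
    unfold mu2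
    refine mul_nonneg (mu_nonneg c _) (div_nonneg (ind_nonneg _) ?_)
    exact Finset.sum_nonneg fun _ _ => ind_nonneg _
  · have h := ex_mu2_fst c i (fun _ => 1)
    have h2 : ex (mu2 c i) (fun _ => (1 : ℝ)) = ∑ ω, mu2 c i ω := by
      unfold ex; simp
    have h3 : ex (mu c) (fun _ => (1 : ℝ)) = ∑ ω, mu c ω := by
      unfold ex; simp
    rw [← h2, h, h3, (isProb_mu c).2]

theorem pm_mu2_fst {n : ℕ} (c : Cfg n) (i : ℕ) {α : Type} (X : Sp n → α) (z : Sp2 n) :
    pm (mu2 c i) (fun z => X z.1) z = pm (mu c) X z.1 :=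
  ex_mu2_fst c i (fun y => ind (X y = X z.1))

theorem ce_mu2_fst {n : ℕ} (c : Cfg n) (i : ℕ) {α : Type} (X : Sp n → α) (f : Sp n → ℝ)
    (z : Sp2 n) : ce (mu2 c i) (fun z => X z.1) (fun z => f z.1) z = ce (mu c) X f z.1 := by
  unfold ce
  rw [pm_mu2_fst]
  congr 1
  have h := ex_mu2_fst c i (fun y => ind (X y = X z.1) * f y)
  unfold ex at h
  simp only [mul_assoc]
  exact h

theorem Hc_mu2_fst {n : ℕ} (c : Cfg n) (i : ℕ) {α ζ : Type} (X : Sp n → α) (Z : Sp n → ζ) :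
    Hc (mu2 c i) (fun z => Z z.1) (fun z => X z.1) = Hc (mu c) Z X := by
  unfold Hc
  have h := ex_mu2_fst c i
    (fun x => Real.log (pm (mu c) X x / pm (mu c) (fun y => (X y, Z y)) x))
  rw [← h]
  congr 1
  funext z
  rw [pm_mu2_fst c i X z]
  have := pm_mu2_fst c i (fun y => (X y, Z y)) z
  rw [← this]

/-- given the first component, the resampled word differs at `i` with probability `cntD / cnt` -/
theorem ce_mu2_differ {n : ℕ} (c : Cfg n) (i : ℕ) (f : Sp n → ℝ) :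
    ex (mu2 c i) (fun z => f z.1 * ind (differ i z.1.1.2 z.2))
      = ex (mu c) (fun x => f x * (cntD c i x.1 / cnt c i x.1)) := by
  unfold ex
  rw [Fintype.sum_prod_type]
  refine Finset.sum_congr rfl fun x _ => ?_
  have h : ∀ w' : Word n, mu2 c i (x, w') * (f (x, w').1 * ind (differ i (x, w').1.1.2 (x, w').2))
      = (mu c x * f x) * (ind ((x.1.1, w') ∈ c.G ∧ agree i x.1.2 w' ∧ differ i x.1.2 w')
        / cnt c i x.1) := by
    intro w'
    have e : ind ((x.1.1, w') ∈ c.G ∧ agree i x.1.2 w' ∧ differ i x.1.2 w')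
        = ind ((x.1.1, w') ∈ c.G ∧ agree i x.1.2 w') * ind (differ i x.1.2 w') := by
      by_cases h1 : (x.1.1, w') ∈ c.G ∧ agree i x.1.2 w'
      · by_cases h2 : differ i x.1.2 w'
        · rw [ind_of h1, ind_of h2, ind_of ⟨h1.1, h1.2, h2⟩]; norm_num
        · rw [ind_of_not h2, ind_of_not (fun h3 => h2 h3.2.2)]; norm_num
      · rw [ind_of_not h1, ind_of_not (fun h3 => h1 ⟨h3.1, h3.2.1⟩)]; norm_num
    rw [e]
    show mu c x * (ind ((x.1.1, w') ∈ c.G ∧ agree i x.1.2 w') / cnt c i x.1)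
      * (f x * ind (differ i x.1.2 w')) = _
    ring
  simp only [h]
  rw [← Finset.mul_sum, ← Finset.sum_div]
  have : (∑ w' : Word n, ind ((x.1.1, w') ∈ c.G ∧ agree i x.1.2 w' ∧ differ i x.1.2 w'))
      = cntD c i x.1 := rfl
  rw [this]
  ring

/-- the law of `u` is uniform on `ZMod (3^(2n))` -/
theorem ex_uu {n : ℕ} (c : Cfg n) (f : ZMod (3 ^ (2 * n)) → ℝ) :
    ex (mu c) (fun x => f (uu c x)) = (∑ v, f v) / 3 ^ (2 * n) := by
  rw [ex_mu_eq]
  have h : ∀ x : Fin (3 ^ n) × Word n, ∑ τ : ZMod (3 ^ (2 * n)), f (uu c (x, τ)) = ∑ v, f v := by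
    intro x
    unfold uu
    exact Equiv.sum_comp (Equiv.addLeft (((yi c x : ℤ) : ZMod (3 ^ (2 * n))))) f
  simp only [h, Finset.sum_const, nsmul_eq_mul]
  have := card_pos' c
  field_simp

end Pool.Agent.helper32.Cant
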