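import Pool.Agent.helper35.Cant.UF
import Pool.Agent.helper44.Cant.GEO
import Pool.Agent.helper30.Cant.STOP
import Pool.Agent.helper72.Cant.ENT

set_option autoImplicit false

/-! # module CORE -/

namespace Pool.Agent.helper32.Cant

open Finset

theorem core_ncf_eq {Ω : Type} [Fintype Ω] {α : Type} {μ : Ω → ℝ} {X : Ω → α} (b : Ω → ℕ) {ω ω' : Ω}
    (h : X ω = X ω') : ncf μ X b ω = ncf μ X b ω' := by
  unfold ncf
  have e : (fun y => ce μ X (fun y' => ind (b y + 2 ≤ b y' ∨ b y' + 2 ≤ b y)) ω)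
      = (fun y => ce μ X (fun y' => ind (b y + 2 ≤ b y' ∨ b y' + 2 ≤ b y)) ω') := by
    funext y
    exact ce_eq h
  rw [e]
  exact ce_eq h

theorem core_Ib_eq {n : ℕ} (c : Cfg n) (A q k l : ℕ) {x y : Sp n}
    (h : obs c (k - A) (l * q) x = obs c (k - A) (l * q) y) : Ib c A q k l x = Ib c A q k l y := by
  unfold Ib
  rw [core_ncf_eq _ h]

theorem core_Lam_congr {n : ℕ} (c : Cfg n) (ε : ℝ) (A k j : ℕ) {x y : Sp n}
    (h : obs c (k - A) j x = obs c (k - A) j y) : Lam c ε A k x ↔ Lam c ε A k y := by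
  have h1 : x.2 = y.2 := congrArg Prod.fst h
  have h2 : x.1.2 = y.1.2 := congrArg (fun z => z.2.1) h
  have h3 : cell n (k - A) (uu c x) = cell n (k - A) (uu c y) := congrArg (fun z => z.2.2.1) h
  unfold Lam lam typ
  rw [pm_eq (μ := mu c) (X := fun y : Sp n => (y.2, y.1.2, cell n (k - A) (uu c y)))
      (show _ = (y.2, y.1.2, cell n (k - A) (uu c y)) by simp only [h1, h2, h3]),
    pm_eq (μ := mu c) (X := fun y : Sp n => (y.2, y.1.2))
      (show _ = (y.2, y.1.2) by simp only [h1, h2]),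
    pm_eq (μ := mu c) (X := fun y : Sp n => y.1.2) h2]

theorem core_k {n : ℕ} (c : Cfg n) {ε : ℝ} {q A k : ℕ} (hq : 1 ≤ q) (hqA : q ≤ A)
    (hAk : A ≤ k) (hkn : k ≤ n) (N : ℕ) :
    N * ex (mu c) (fun x => Uf c (obs c (k - A) 0) k x * ind (Lam c ε A k x))
      ≤ 81 * 3 ^ (4 * q) * ∑ l ∈ range (k / q),
          ex (mu c) (fun x => ncf (mu c) (obs c (k - A) (l * q)) (bR c ((l + 1) * q)) x
            * Uf c (obs c (k - A) (l * q)) k x)
        + 2 * N * ex (mu c) (fun x =>
            ind (Lam c ε A k x ∧ ∑ l ∈ range (k / q), Ib c A q k l x < N)) := by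
  have hP := isProb_mu c
  have hRef : ∀ l, Ref (obs c (k - A) (l * q)) (obs c (k - A) ((l + 1) * q)) := fun l =>
    ref_obs c le_rfl (by omega) (Nat.mul_le_mul_right q (Nat.le_succ l))
  have h := stop_bound hP (k / q) N (fun l => obs c (k - A) (l * q)) (fun l _ => hRef l)
    (fun l => Ib c A q k l)
    (fun l ω => by unfold Ib ind; split_ifs <;> simp)
    (fun l _ ω ω' hω => core_Ib_eq c A q k l hω)
    (fun l => Uf c (obs c (k - A) (l * q)) k)
    (fun l ω => Uf_nonneg c _ k ω) (fun l ω => Uf_le_two c _ k ω)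
    (fun l _ ω ω' hω => Uf_eq c _ k hω)
    (fun l _ ω _ => Uf_le_ce c (hRef l) k ω)
    (Lam c ε A k) (fun ω ω' hω => core_Lam_congr c ε A k _ hω)
  have e0 : (fun ω => Uf c (obs c (k - A) (0 * q)) k ω * ind (Lam c ε A k ω))
      = (fun x => Uf c (obs c (k - A) 0) k x * ind (Lam c ε A k x)) := by
    simp only [Nat.zero_mul]
  simp only [Nat.zero_mul] at h
  have hle : ex (mu c) (fun ω => ∑ l ∈ range (k / q),
        Ib c A q k l ω * Uf c (obs c (k - A) (l * q)) k ω * ind (Lam c ε A k ω))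
      ≤ 81 * 3 ^ (4 * q) * ∑ l ∈ range (k / q),
          ex (mu c) (fun x => ncf (mu c) (obs c (k - A) (l * q)) (bR c ((l + 1) * q)) x
            * Uf c (obs c (k - A) (l * q)) k x) := by
    rw [ex_sum, Finset.mul_sum]
    refine Finset.sum_le_sum fun l _ => ?_
    rw [← ex_smul]
    refine ex_mono hP.1 fun ω _ => ?_
    have h1 : Ib c A q k l ω ≤ 81 * 3 ^ (4 * q)
        * ncf (mu c) (obs c (k - A) (l * q)) (bR c ((l + 1) * q)) ω := by
      have hn := ncf_nonneg hP (obs c (k - A) (l * q)) (bR c ((l + 1) * q)) ω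
      unfold Ib
      by_cases hc : 1 / (81 * (3 : ℝ) ^ (4 * q))
          ≤ ncf (mu c) (obs c (k - A) (l * q)) (bR c ((l + 1) * q)) ω
      · rw [ind_of hc]
        rw [div_le_iff₀ (by positivity)] at hc
        linarith
      · rw [ind_of_not hc]
        positivity
    have hU := Uf_nonneg c (obs c (k - A) (l * q)) k ω
    have hI : 0 ≤ Ib c A q k l ω := ind_nonneg _
    calc Ib c A q k l ω * Uf c (obs c (k - A) (l * q)) k ω * ind (Lam c ε A k ω)
        ≤ Ib c A q k l ω * Uf c (obs c (k - A) (l * q)) k ω * 1 :=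
          mul_le_mul_of_nonneg_left (ind_le_one _) (mul_nonneg hI hU)
      _ ≤ (81 * 3 ^ (4 * q) * ncf (mu c) (obs c (k - A) (l * q)) (bR c ((l + 1) * q)) ω)
          * Uf c (obs c (k - A) (l * q)) k ω := by
          rw [mul_one]
          exact mul_le_mul_of_nonneg_right h1 hU
      _ = _ := by ring
  have h3 := h.trans hle
  linarith

end Pool.Agent.helper32.Cant
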