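import Pool.Agent.helper35.Cant.CORE
import Pool.Agent.helper44.Cant.GEO2
import Pool.Agent.helper30.Cant.CNT
import Pool.Agent.helper30.Cant.NCS

set_option autoImplicit false

/-! # module FEW -/

namespace Pool.Agent.helper32.Cant

open Finset

/-- the translation is uniform and independent of the word -/
theorem few_pm_fst {n : ℕ} (c : Cfg n) (x : Sp n) :
    pm (mu c) (fun y : Sp n => (y.2, y.1.2)) x
      = pm (mu c) (fun y : Sp n => y.1.2) x / 3 ^ (2 * n) := by
  classical
  have hc : (0 : ℝ) < c.G.card := by exact_mod_cast c.ne.card_pos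
  unfold pm
  have e1 : ∀ f : Sp n → ℝ, ∑ y, f y = ∑ a, ∑ τ, f (a, τ) := fun f => Fintype.sum_prod_type f
  rw [e1, e1, Finset.sum_div]
  refine Finset.sum_congr rfl fun a _ => ?_
  have h1 : ∀ τ : ZMod (3 ^ (2 * n)), mu c (a, τ) = mu c (a, 0) := fun τ => rfl
  have h2 : ∑ τ : ZMod (3 ^ (2 * n)), mu c (a, τ) * ind ((τ, a.2) = (x.2, x.1.2))
      = mu c (a, 0) * ind (a.2 = x.1.2) := by
    rw [Finset.sum_eq_single_of_mem x.2 (Finset.mem_univ _)]
    · rw [h1]
      congr 1
      exact ind_congr (by simp)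
    · intro τ _ hτ
      rw [ind_of_not (fun h => hτ (congrArg Prod.fst h)), mul_zero]
  have h3 : ∑ τ : ZMod (3 ^ (2 * n)), mu c (a, τ) * ind (a.2 = x.1.2)
      = 3 ^ (2 * n) * (mu c (a, 0) * ind (a.2 = x.1.2)) := by
    simp only [h1]
    rw [Finset.sum_const, Finset.card_univ, ZMod.card, nsmul_eq_mul]
    push_cast
    ring
  rw [h3]
  refine h2.trans ?_
  field_simp

theorem few_bR_zero {n : ℕ} (c : Cfg n) (x : Sp n) : bR c 0 x = 1 := by
  unfold bR
  have h1 := c.lo x.1.1
  have h2 := c.hi x.1.1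
  rw [Nat.sub_zero]
  have h3 : 0 < 3 ^ n := by positivity
  apply Nat.le_antisymm
  · have : c.R x.1.1 / 3 ^ n < 2 := by
      rw [Nat.div_lt_iff_lt_mul h3]; linarith
    omega
  · rw [Nat.le_div_iff_mul_le h3]; linarith

theorem few_prob {n : ℕ} (c : Cfg n) {ε : ℝ} {q A k : ℕ} (hq : 1 ≤ q) (hqA : q ≤ A)
    (hAk : A ≤ k) (hkn : k ≤ n) (hn : 1 ≤ n) (N : ℕ) :
    ex (mu c) (fun x => ind (Lam c ε A k x ∧ ∑ l ∈ range (k / q), Ib c A q k l x < N))
      ≤ 2 ^ (k / q) * √(3 ^ q) ^ N
        * √(3 * n * (6 ^ n / c.G.card) * Real.exp (-(ε * n))) := by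
  have hP := isProb_mu c
  have hG : (0 : ℝ) < c.G.card := by exact_mod_cast c.ne.card_pos
  have hn0 : (0 : ℝ) < n := by exact_mod_cast hn
  have hkq : k / q * q ≤ k := Nat.div_mul_le_self k q
  have hRef : ∀ l, Ref (obs c (k - A) (l * q)) (obs c (k - A) ((l + 1) * q)) := fun l =>
    ref_obs c le_rfl (by omega) (Nat.mul_le_mul_right q (Nat.le_succ l))
  have h3q : 3 ≤ 3 ^ q := by
    calc 3 = 3 ^ 1 := (pow_one 3).symm
      _ ≤ 3 ^ q := Nat.pow_le_pow_right (by norm_num) hq
  have hlk : ∀ l < k / q, (l + 1) * q ≤ n := by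
    intro l hl
    have : (l + 1) * q ≤ k / q * q := Nat.mul_le_mul_right q hl
    omega
  -- the digits of the next block
  have hb : ∀ l < k / q, ∀ ω y : Sp n, obs c (k - A) (l * q) y = obs c (k - A) (l * q) ω →
      3 ^ q * bR c (l * q) ω ≤ bR c ((l + 1) * q) y ∧
        bR c ((l + 1) * q) y < 3 ^ q * bR c (l * q) ω + 3 ^ q := by
    intro l hl ω y hy
    have h1 : bR c (l * q) y = bR c (l * q) ω := congrArg (fun z => z.2.2.2) hy
    have h2 := bR_div c (j := l * q) (j' := (l + 1) * q) (Nat.mul_le_mul_right q (Nat.le_succ l))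
      (hlk l hl) y
    have h3 : (l + 1) * q - l * q = q := by
      rw [Nat.succ_mul]; omega
    rw [h3, h1] at h2
    rw [h2]
    constructor
    · rw [mul_comm]; exact Nat.div_mul_le_self _ _
    · have := Nat.lt_div_mul_add (a := bR c ((l + 1) * q) y) (b := 3 ^ q) (by positivity)
      rw [mul_comm (3 ^ q)]
      exact this
  -- same partition
  have hpart : ∀ l < k / q, pm (mu c) (obs c (k - A) ((l + 1) * q))
      = pm (mu c) (fun z => (obs c (k - A) (l * q) z, bR c ((l + 1) * q) z)) := by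
    intro l hl
    apply pm_congr
    intro ω ω'
    constructor
    · intro h
      have h1 := hRef l ω ω' h
      have h2 : bR c ((l + 1) * q) ω = bR c ((l + 1) * q) ω' := congrArg (fun z => z.2.2.2) h
      simp only [h1, h2]
    · intro h
      have h1 : obs c (k - A) (l * q) ω = obs c (k - A) (l * q) ω' := congrArg Prod.fst h
      have h2 : bR c ((l + 1) * q) ω = bR c ((l + 1) * q) ω' := congrArg Prod.snd h
      have h3 : ω.2 = ω'.2 := congrArg Prod.fst h1
      have h4 : ω.1.2 = ω'.1.2 := congrArg (fun z => z.2.1) h1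
      have h5 : cell n (k - A) (uu c ω) = cell n (k - A) (uu c ω') := congrArg (fun z => z.2.2.1) h1
      unfold obs
      simp only [h2, h3, h4, h5]
  have hm : (1 : ℝ) ≤ 3 ^ q := one_le_pow₀ (by norm_num)
  refine few_bound hP (k / q) (fun l => obs c (k - A) (l * q)) (fun l _ => hRef l)
    (fun l => Ib c A q k l) (fun l ω => by unfold Ib ind; split_ifs <;> simp)
    (fun l _ ω ω' hω => core_Ib_eq c A q k l hω) (3 ^ q) hm ?_ ?_ (Lam c ε A k)
    (3 * n * (6 ^ n / c.G.card) * Real.exp (-(ε * n))) (by positivity) ?_ N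
  · intro l hl ω hω hI
    have h := sqrt_sum_le_two hP (obs c (k - A) (l * q)) (bR c ((l + 1) * q)) (3 ^ q)
      (3 ^ q * bR c (l * q) ω) h3q hω (fun y hy => hb l hl ω y hy) (by
        by_contra hcon
        push Not at hcon
        have e : (81 * (((3 ^ q : ℕ) : ℝ)) ^ 4) = 81 * (3 : ℝ) ^ (4 * q) := by
          push_cast
          rw [← pow_mul, mul_comm q 4]
        rw [e] at hcon
        have : Ib c A q k l ω = 1 := ind_of hcon
        have h0 : Ib c A q k l ω = 0 := hI
        rw [this] at h0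
        norm_num at h0)
    rw [← hpart l hl] at h
    exact h
  · intro l hl ω hω
    have h := sqrt_sum_le hP (obs c (k - A) (l * q)) (bR c ((l + 1) * q)) (3 ^ q)
      (3 ^ q * bR c (l * q) ω) h3q hω (fun y hy => hb l hl ω y hy)
    rw [← hpart l hl] at h
    push_cast at h
    exact h
  · intro ω hS hω
    have h1 := pm_obs_le c (k := k - A) (j := k / q * q) (by omega) (by
      have h2 : k < k / q * q + q := by
        have := Nat.lt_div_mul_add (a := k) (b := q) (by omega)
        exact this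
      omega) ω
    refine h1.trans ?_
    -- lower bound of `pm X_0`
    have e0 : pm (mu c) (obs c (k - A) (0 * q)) ω
        = pm (mu c) (fun y : Sp n => (y.2, y.1.2, cell n (k - A) (uu c y))) ω := by
      have := pm_congr (μ := mu c) (X := obs c (k - A) (0 * q))
        (Y := fun y : Sp n => (y.2, y.1.2, cell n (k - A) (uu c y))) (by
          intro a b
          unfold obs
          simp only [Nat.zero_mul, few_bR_zero, Prod.mk.injEq, and_true])
      rw [this]
    show _ ≤ _ * pm (mu c) (obs c (k - A) (0 * q)) ω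
    rw [e0]
    set p := pm (mu c) (fun y : Sp n => (y.2, y.1.2, cell n (k - A) (uu c y))) ω with hp
    have hp0 : 0 < p := pm_pos hP.1 _ hω
    have hlam := hS.1
    have htyp := hS.2
    unfold lam at hlam
    rw [← hp, few_pm_fst] at hlam
    unfold typ at htyp
    set w := pm (mu c) (fun y : Sp n => y.1.2) ω with hw
    have hw0 : 0 < w := pm_pos hP.1 _ hω
    have h2 : Real.exp (ε * n) ≤ 3 ^ (k - A) * p / (w / 3 ^ (2 * n)) := by
      rw [← Real.log_le_log_iff (Real.exp_pos _) (by positivity), Real.log_exp]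
      exact hlam
    rw [le_div_iff₀ (by positivity)] at h2
    have hexp : Real.exp (-(ε * n)) * Real.exp (ε * n) = 1 := by
      rw [← Real.exp_add]; simp
    -- `p ≥ e^{εn} w / (3^(2n) 3^(k-A))`
    have h3 : Real.exp (ε * n) * (1 / ((n : ℝ) * 2 ^ n) / 3 ^ (2 * n)) ≤ 3 ^ (k - A) * p := by
      refine le_trans ?_ h2
      apply mul_le_mul_of_nonneg_left _ (Real.exp_pos _).le
      exact div_le_div_of_nonneg_right htyp (by positivity)
    have h4 : 1 / ((n : ℝ) * 2 ^ n) / 3 ^ (2 * n)
        ≤ Real.exp (-(ε * n)) * (3 ^ (k - A) * p) := by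
      have := mul_le_mul_of_nonneg_left h3 (Real.exp_pos (-(ε * n))).le
      rw [← mul_assoc, hexp, one_mul] at this
      exact this
    have h5 : (3 : ℝ) ^ n = 3 ^ (n - (k - A)) * 3 ^ (k - A) := by
      rw [← pow_add]
      congr 1
      omega
    have h6 : (6 : ℝ) ^ n = 2 ^ n * 3 ^ n := by
      rw [← mul_pow]; norm_num
    have h7 : (3 : ℝ) * 3 ^ (n - (k - A)) / (c.G.card * 3 ^ (2 * n))
        = (3 * n * (6 ^ n / c.G.card) / 3 ^ (k - A)) * (1 / ((n : ℝ) * 2 ^ n) / 3 ^ (2 * n)) := by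
      rw [h6, h5]
      field_simp
    rw [h7]
    have h8 := mul_le_mul_of_nonneg_left h4
      (show (0 : ℝ) ≤ 3 * n * (6 ^ n / c.G.card) / 3 ^ (k - A) by positivity)
    refine h8.trans (le_of_eq ?_)
    field_simp

end Pool.Agent.helper32.Cant
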