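import Pool.Agent.helper23.Cant.PAIR
import Pool.Agent.helper40.Cant.ALPHA
import Pool.Agent.helper40.Cant.BUD1
import Pool.Agent.helper40.Cant.BUD2

set_option autoImplicit false

/-! # module SUM -/

namespace Pool.Agent.helper32.Cant

open Finset

/-- Cauchy-Schwarz: `∑ √f ≤ √(#s · ∑ f)` -/
private theorem sum_sqrt_le {ι : Type} (s : Finset ι) (f : ι → ℝ) (hf : ∀ i ∈ s, 0 ≤ f i) :
    ∑ i ∈ s, √(f i) ≤ √(s.card * ∑ i ∈ s, f i) := by
  refine Real.le_sqrt_of_sq_le ?_
  have h := Finset.sum_mul_sq_le_sq_mul_sq s (fun _ => (1 : ℝ)) (fun i => √(f i))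
  simp only [one_mul, one_pow, Finset.sum_const, nsmul_eq_mul, mul_one] at h
  refine h.trans (le_of_eq ?_)
  congr 1
  exact Finset.sum_congr rfl fun i hi => Real.sq_sqrt (hf i hi)

private theorem sum_le_sqrt {ι : Type} (s : Finset ι) (f : ι → ℝ) :
    ∑ i ∈ s, f i ≤ √(s.card * ∑ i ∈ s, f i ^ 2) := by
  refine Real.le_sqrt_of_sq_le ?_
  have h := Finset.sum_mul_sq_le_sq_mul_sq s (fun _ => (1 : ℝ)) f
  simp only [one_mul, one_pow, Finset.sum_const, nsmul_eq_mul, mul_one] at h
  exact h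

theorem sum_bound {n : ℕ} (c : Cfg n) {q h A : ℕ} {η : ℝ} (hη : 0 ≤ η) (hq : 1 ≤ q) (hh : 2 ≤ h)
    (hA : 4 * h + q ≤ A) (hqA : q ∣ A) (hn : 1 ≤ n)
    (hK : 6 ^ n * Real.exp (-(η * n)) ≤ c.G.card) :
    ∑ k ∈ Ico A (n - A), ∑ l ∈ range (k / q),
        ex (mu c) (fun x => ncf (mu c) (obs c (k - A) (l * q)) (bR c ((l + 1) * q)) x
            * Uf c (obs c (k - A) (l * q)) k x)
      ≤ (n : ℝ) ^ 2 / q * (120 / 3 ^ h + 48 * 3 ^ (2 * h + q) * √(3 * A ^ 2 / n + 2 * A * η)
          + 4 * √η) := by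
  have hG : (0 : ℝ) < c.G.card := by exact_mod_cast c.ne.card_pos
  have hn0 : (0 : ℝ) < n := by exact_mod_cast hn
  have hq0 : (0 : ℝ) < q := by exact_mod_cast hq
  -- the index set
  set P : Finset (Σ _ : ℕ, ℕ) := (Ico A (n - A)).sigma (fun k => range (k / q)) with hP
  have hmem : ∀ p ∈ P, A ≤ p.1 ∧ p.1 + A < n ∧ p.2 < p.1 / q := by
    intro p hp
    rw [hP, Finset.mem_sigma, Finset.mem_Ico, Finset.mem_range] at hp
    omega
  have hsig : ∀ F : ℕ → ℕ → ℝ, ∑ k ∈ Ico A (n - A), ∑ l ∈ range (k / q), F k l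
      = ∑ p ∈ P, F p.1 p.2 := fun F => (Finset.sum_sigma' _ _ _)
  rw [hsig (fun k l => ex (mu c) (fun x => ncf (mu c) (obs c (k - A) (l * q))
    (bR c ((l + 1) * q)) x * Uf c (obs c (k - A) (l * q)) k x))]
  -- number of pairs
  have hcard : (P.card : ℝ) ≤ (n : ℝ) ^ 2 / q := by
    rw [hP, Finset.card_sigma]
    push_cast
    simp only [Finset.card_range]
    calc (∑ k ∈ Ico A (n - A), ((k / q : ℕ) : ℝ)) ≤ ∑ k ∈ Ico A (n - A), (n : ℝ) / q := by
          refine Finset.sum_le_sum fun k hk => ?_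
          rw [Finset.mem_Ico] at hk
          refine (Nat.cast_div_le).trans ?_
          apply div_le_div_of_nonneg_right _ hq0.le
          have : k ≤ n := by omega
          exact_mod_cast this
      _ = ((n - A - A : ℕ) : ℝ) * (n / q) := by
          rw [Finset.sum_const, Nat.card_Ico, nsmul_eq_mul]
      _ ≤ n * (n / q) := by
          apply mul_le_mul_of_nonneg_right _ (by positivity)
          have : n - A - A ≤ n := by omega
          exact_mod_cast this
      _ = (n : ℝ) ^ 2 / q := by ring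
  -- the bound for one pair
  have hpair : ∀ p ∈ P, ex (mu c) (fun x => ncf (mu c) (obs c (p.1 - A) (p.2 * q))
      (bR c ((p.2 + 1) * q)) x * Uf c (obs c (p.1 - A) (p.2 * q)) p.1 x)
      ≤ 120 / 3 ^ h + 48 * 3 ^ (2 * h + q) * √(iota c A p.1 (p.2 * q)
          + ell c A (p.1 + 2 * h - p.2 * q) p.1 (p.2 * q))
        + 4 * alpha c (p.1 + 2 * h - p.2 * q) := by
    intro p hp
    obtain ⟨h1, h2, h3⟩ := hmem p hp
    have h4 : (p.2 + 1) * q ≤ p.1 := by
      have : (p.2 + 1) * q ≤ p.1 / q * q := Nat.mul_le_mul_right q h3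
      exact this.trans (Nat.div_mul_le_self _ _)
    have h5 : (p.2 + 1) * q = p.2 * q + q := Nat.succ_mul _ _
    rw [h5]
    exact pair_bound c hq hh hA h1 h2.le (by omega) (by omega) (by omega)
  refine (Finset.sum_le_sum hpair).trans ?_
  rw [Finset.sum_add_distrib, Finset.sum_add_distrib, ← Finset.mul_sum, ← Finset.mul_sum,
    Finset.sum_const, nsmul_eq_mul]
  -- the sum of the entropies
  have hnn : ∀ p ∈ P, 0 ≤ iota c A p.1 (p.2 * q)
          + ell c A (p.1 + 2 * h - p.2 * q) p.1 (p.2 * q) := by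
    intro p hp
    obtain ⟨h1, h2, h3⟩ := hmem p hp
    exact add_nonneg (iota_nonneg c (by omega)) (ell_nonneg c (by omega))
  have hAq : ((A / q : ℕ) : ℝ) = A / q := by
    rw [Nat.cast_div hqA hq0.ne']
  have hA0 : (0 : ℝ) ≤ A := Nat.cast_nonneg A
  have hlog3 : Real.log 3 ≤ 1.5 := by
    rw [Real.log_le_iff_le_exp (by norm_num)]
    have h1 := Real.quadratic_le_exp_of_nonneg (show (0 : ℝ) ≤ 1.5 by norm_num)
    norm_num at h1 ⊢
    linarith
  have hlog30 : 0 ≤ Real.log 3 := Real.log_nonneg (by norm_num)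
  have hiota : ∑ p ∈ P, iota c A p.1 (p.2 * q) ≤ (n : ℝ) ^ 2 / q * (3 * A ^ 2 / n) := by
    rw [← hsig (fun k l => iota c A k (l * q))]
    calc ∑ k ∈ Ico A (n - A), ∑ l ∈ range (k / q), iota c A k (l * q)
        ≤ ∑ k ∈ Ico A (n - A), ((A / q : ℕ) : ℝ) * (2 * A * Real.log 3) := by
          refine Finset.sum_le_sum fun k hk => ?_
          rw [Finset.mem_Ico] at hk
          exact iota_budget c hq hqA hk.1 (by omega)
      _ = ((n - A - A : ℕ) : ℝ) * (((A / q : ℕ) : ℝ) * (2 * A * Real.log 3)) := by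
          rw [Finset.sum_const, Nat.card_Ico, nsmul_eq_mul]
      _ ≤ n * (((A / q : ℕ) : ℝ) * (2 * A * 1.5)) := by
          apply mul_le_mul
          · have : n - A - A ≤ n := by omega
            exact_mod_cast this
          · apply mul_le_mul_of_nonneg_left _ (by positivity)
            apply mul_le_mul_of_nonneg_left hlog3 (by positivity)
          · positivity
          · positivity
      _ = (n : ℝ) ^ 2 / q * (3 * A ^ 2 / n) := by
          rw [hAq]
          field_simp
          norm_num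
          ring
  have hlogK : Real.log (6 ^ n / c.G.card) ≤ η * n := by
    rw [Real.log_le_iff_le_exp (by positivity), div_le_iff₀ hG]
    have h1 := mul_le_mul_of_nonneg_left hK (Real.exp_pos (η * n)).le
    have h2 : Real.exp (η * n) * (6 ^ n * Real.exp (-(η * n))) = 6 ^ n := by
      rw [Real.exp_neg]
      field_simp
    rw [h2] at h1
    exact h1
  have hell : ∑ p ∈ P, ell c A (p.1 + 2 * h - p.2 * q) p.1 (p.2 * q)
      ≤ (n : ℝ) ^ 2 / q * (2 * A * η) := by
    rw [← hsig (fun k l => ell c A (k + 2 * h - l * q) k (l * q))]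
    refine (ell_budget c hq hqA hA).trans ?_
    calc (n : ℝ) * (2 * (A / q : ℕ)) * Real.log (6 ^ n / c.G.card)
        ≤ (n : ℝ) * (2 * (A / q : ℕ)) * (η * n) := by
          apply mul_le_mul_of_nonneg_left hlogK (by positivity)
      _ = (n : ℝ) ^ 2 / q * (2 * A * η) := by
          rw [hAq]; field_simp
  have hsum : ∑ p ∈ P, √(iota c A p.1 (p.2 * q)
          + ell c A (p.1 + 2 * h - p.2 * q) p.1 (p.2 * q))
      ≤ (n : ℝ) ^ 2 / q * √(3 * A ^ 2 / n + 2 * A * η) := by
    refine (sum_sqrt_le P _ hnn).trans ?_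
    have h1 : (P.card : ℝ) * ∑ p ∈ P, (iota c A p.1 (p.2 * q)
          + ell c A (p.1 + 2 * h - p.2 * q) p.1 (p.2 * q))
        ≤ ((n : ℝ) ^ 2 / q) ^ 2 * (3 * A ^ 2 / n + 2 * A * η) := by
      rw [sq, mul_assoc]
      apply mul_le_mul hcard _ (Finset.sum_nonneg hnn) (by positivity)
      rw [Finset.sum_add_distrib, mul_add]
      exact add_le_add hiota hell
    refine (Real.sqrt_le_sqrt h1).trans ?_
    rw [Real.sqrt_mul (by positivity), Real.sqrt_sq (by positivity)]
  -- the sum of the alphas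
  have halpha : ∑ p ∈ P, alpha c (p.1 + 2 * h - p.2 * q) ≤ (n : ℝ) ^ 2 / q * √η := by
    have h0 : ∑ i ∈ range n, alpha c i ≤ n * √η := by
      refine (sum_le_sqrt (range n) (alpha c)).trans ?_
      rw [Finset.card_range]
      have h1 : (n : ℝ) * ∑ i ∈ range n, alpha c i ^ 2 ≤ (n : ℝ) ^ 2 * η := by
        rw [sq, mul_assoc]
        apply mul_le_mul_of_nonneg_left _ hn0.le
        refine (alpha_budget c).trans (hlogK.trans (le_of_eq (mul_comm _ _)))
      refine (Real.sqrt_le_sqrt h1).trans ?_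
      rw [Real.sqrt_mul (by positivity), Real.sqrt_sq hn0.le]
    -- exchange the order of summation
    have h1 : ∑ p ∈ P, alpha c (p.1 + 2 * h - p.2 * q)
        ≤ ∑ l ∈ range (n / q), ∑ i ∈ range n, alpha c i := by
      have h2 : ∑ p ∈ P, alpha c (p.1 + 2 * h - p.2 * q)
          = ∑ l ∈ range (n / q), ∑ p ∈ P.filter (fun p => p.2 = l),
              alpha c (p.1 + 2 * h - p.2 * q) := by
        rw [Finset.sum_fiberwise_of_maps_to]
        intro p hp
        obtain ⟨h1, h2, h3⟩ := hmem p hp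
        rw [Finset.mem_range]
        exact h3.trans_le (Nat.div_le_div_right (by omega))
      rw [h2]
      refine Finset.sum_le_sum fun l _ => ?_
      have h3 : ∑ p ∈ P.filter (fun p => p.2 = l), alpha c (p.1 + 2 * h - p.2 * q)
          = ∑ i ∈ (P.filter (fun p => p.2 = l)).image (fun p => p.1 + 2 * h - p.2 * q),
              alpha c i := by
        rw [Finset.sum_image]
        intro a ha b hb hab
        rw [Finset.mem_coe, Finset.mem_filter] at ha hb
        obtain ⟨ha1, ha2⟩ := ha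
        obtain ⟨hb1, hb2⟩ := hb
        obtain ⟨_, _, h6⟩ := hmem a ha1
        obtain ⟨_, _, h7⟩ := hmem b hb1
        have h8 : (a.2 + 1) * q ≤ a.1 := by
          have : (a.2 + 1) * q ≤ a.1 / q * q := Nat.mul_le_mul_right q h6
          exact this.trans (Nat.div_mul_le_self _ _)
        have h9 : (b.2 + 1) * q ≤ b.1 := by
          have : (b.2 + 1) * q ≤ b.1 / q * q := Nat.mul_le_mul_right q h7
          exact this.trans (Nat.div_mul_le_self _ _)
        rw [Nat.succ_mul] at h8 h9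
        simp only [ha2, hb2] at hab h8 h9
        have h10 : a.1 = b.1 := by omega
        obtain ⟨a1, a2⟩ := a
        obtain ⟨b1, b2⟩ := b
        simp only at h10 ha2 hb2
        rw [h10, ha2, hb2]
      rw [h3]
      apply Finset.sum_le_sum_of_subset_of_nonneg
      · intro i hi
        rw [Finset.mem_image] at hi
        obtain ⟨p, hp, rfl⟩ := hi
        rw [Finset.mem_filter] at hp
        obtain ⟨h4, h5, h6⟩ := hmem p hp.1
        rw [Finset.mem_range]
        omega
      · intro i _ _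
        exact alpha_nonneg c i
    refine h1.trans ?_
    rw [Finset.sum_const, Finset.card_range, nsmul_eq_mul]
    calc ((n / q : ℕ) : ℝ) * ∑ i ∈ range n, alpha c i ≤ ((n : ℝ) / q) * (n * √η) := by
          apply mul_le_mul Nat.cast_div_le h0 (Finset.sum_nonneg fun i _ => alpha_nonneg c i)
            (by positivity)
      _ = (n : ℝ) ^ 2 / q * √η := by ring
  have ht1 : (P.card : ℝ) * (120 / 3 ^ h) ≤ (n : ℝ) ^ 2 / q * (120 / 3 ^ h) :=
    mul_le_mul_of_nonneg_right hcard (by positivity)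
  have ht2 := mul_le_mul_of_nonneg_left hsum (show (0 : ℝ) ≤ 48 * 3 ^ (2 * h + q) by positivity)
  have ht3 := mul_le_mul_of_nonneg_left halpha (show (0 : ℝ) ≤ 4 by norm_num)
  calc _ ≤ (n : ℝ) ^ 2 / q * (120 / 3 ^ h)
      + 48 * 3 ^ (2 * h + q) * ((n : ℝ) ^ 2 / q * √(3 * A ^ 2 / n + 2 * A * η))
      + 4 * ((n : ℝ) ^ 2 / q * √η) := by linarith
    _ = _ := by ring

end Pool.Agent.helper32.Cant
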